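import Pool.Agent.helper1.VD.SpecA2

/-!
# Project VD (MP_07c750_an), block A2, row AWP2: the error of the Gaussian beam is a packet of size `R^(-1/2+)`
-/

set_option autoImplicit false

open scoped ContDiff Topology InnerProductSpace ComplexConjugate ENNReal
open MeasureTheory Filter Set

namespace Pool.Agent.VD

open Pool.Agent.VQ (CH)

section AWP2aux

variable {d : ℕ}

/-- monotonicity of pointwise symbol estimates -/
theorem AWP2_mono {K : ℕ} {N N' m m' : ℝ} {A : V d → ℂ} {v : V d} (h : WS K N m A v) (hN : 0 ≤ N) (hNN : N ≤ N') (hm : m ≤ m') (hm' : 0 ≤ m') : WS K N' m' A v := by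
  refine ⟨h.1, fun k hk => (h.2 k hk).trans ?_⟩
  calc m * N ^ k ≤ m' * N ^ k := mul_le_mul_of_nonneg_right hm (pow_nonneg hN k)
    _ ≤ m' * N' ^ k := mul_le_mul_of_nonneg_left (pow_le_pow_left₀ hN hNN k) hm'

theorem AWP2_congr {K : ℕ} {N m : ℝ} {A B : V d → ℂ} {v : V d} (h : WS K N m B v) (hAB : A =ᶠ[𝓝 v] B) : WS K N m A v := by
  refine ⟨h.1.congr_of_eventuallyEq hAB, fun k hk => ?_⟩
  have he : iteratedFDeriv ℝ k A v = iteratedFDeriv ℝ k B v := (Filter.EventuallyEq.iteratedFDeriv ℝ hAB k).eq_of_nhds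
  rw [he]
  exact h.2 k hk

theorem AWP2_zero {K : ℕ} {N m : ℝ} {A : V d → ℂ} {v : V d} (hN : 0 ≤ N) (hm : 0 ≤ m) (hA : A =ᶠ[𝓝 v] fun _ => 0) : WS K N m A v := by
  refine AWP2_congr ⟨contDiffAt_const, fun k _ => ?_⟩ hA
  have he : iteratedFDeriv ℝ k (fun _ : V d => (0 : ℂ)) v = 0 := by
    have := iteratedFDeriv_fun_zero (𝕜 := ℝ) (E := V d) (F := ℂ) (n := k)
    rw [show (fun _ : V d => (0 : ℂ)) = (fun _ : V d => (0 : ℂ)) from rfl, this]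
    rfl
  rw [he, norm_zero]
  exact mul_nonneg hm (pow_nonneg hN k)

theorem AWP2_const {K : ℕ} {N : ℝ} (hN : 0 ≤ N) (c : ℂ) (v : V d) : WS K N ‖c‖ (fun _ => c) v := by
  refine ⟨contDiffAt_const, fun k _ => ?_⟩
  rcases Nat.eq_zero_or_pos k with rfl | hk0
  · rw [norm_iteratedFDeriv_zero, pow_zero, mul_one]
  · rw [iteratedFDeriv_const_of_ne hk0.ne']
    simp only [Pi.zero_apply, norm_zero]
    exact mul_nonneg (norm_nonneg c) (pow_nonneg hN k)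

/-- real valued symbols as complex valued symbols, translated -/
theorem AWP2_real {K : ℕ} {m : ℝ} (g : V d → ℝ) (x v : V d) (hg : ContDiff ℝ ∞ g) (hb : ∀ k ≤ K, ‖iteratedFDeriv ℝ k g (x + v)‖ ≤ m) :
    WS K 1 m (fun w : V d => ((g (x + w) : ℝ) : ℂ)) v := by
  have hg1 : ContDiff ℝ ∞ (fun w : V d => g (x + w)) := hg.comp (contDiff_const.add contDiff_id)
  refine ⟨(Complex.ofRealCLM.contDiff.comp hg1).contDiffAt, fun k hk => ?_⟩
  have h1 : ‖iteratedFDeriv ℝ k (fun w : V d => ((g (x + w) : ℝ) : ℂ)) v‖ = ‖iteratedFDeriv ℝ k (fun w : V d => g (x + w)) v‖ :=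
    Complex.ofRealLI.norm_iteratedFDeriv_comp_left (f := fun w : V d => g (x + w)) (x := v) (hg1.contDiffAt) (i := k) (by exact_mod_cast le_top)
  have h2 : iteratedFDeriv ℝ k (fun w : V d => g (x + w)) v = iteratedFDeriv ℝ k g (x + v) := by
    have := iteratedFDeriv_comp_add_left (𝕜 := ℝ) (f := g) k x v
    exact this
  rw [h1, h2, one_pow, mul_one]
  exact hb k hk

/-- the Gaussian factor: full size in the support of the cut-off -/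
theorem AWP2_E1 {K : ℕ} {C R m η : ℝ} {M : MC d} {v : V d} (hR : 0 ≤ R)
    (h : WS K (C * m * R ^ (1 / 2 + η)) (C * Real.exp (-(R / 2 * (qf M v).im))) (WE R M) v) (hC : 0 ≤ C) (hm : 0 ≤ m)
    (hq : 0 ≤ (qf M v).im) {N : ℝ} (hN : C * m * R ^ (1 / 2 + η) ≤ N) : WS K N C (WE R M) v := by
  have hN0 : 0 ≤ C * m * R ^ (1 / 2 + η) := by positivity
  refine AWP2_mono h hN0 hN ?_ hC
  have : Real.exp (-(R / 2 * (qf M v).im)) ≤ 1 := by
    rw [Real.exp_le_one_iff]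
    have : 0 ≤ R / 2 * (qf M v).im := by positivity
    linarith
  calc C * Real.exp (-(R / 2 * (qf M v).im)) ≤ C * 1 := mul_le_mul_of_nonneg_left this hC
    _ = C := mul_one C

/-- the Gaussian factor: small away from the centre -/
theorem AWP2_E2 {K : ℕ} {C R m η C0 L S : ℝ} {M : MC d} {v : V d} (hR : 0 ≤ R)
    (h : WS K (C * m * R ^ (1 / 2 + η)) (C * Real.exp (-(R / 2 * (qf M v).im))) (WE R M) v) (hC : 0 ≤ C) (hm : 0 ≤ m)
    (hC0 : 1 ≤ C0) (hL : 0 < L) (hq : ‖v‖ ^ 2 ≤ C0 * L ^ 2 * (qf M v).im) (hS : 2 * C0 * Real.exp (-(R * ‖v‖ ^ 2 / (2 * C0 * L ^ 2))) ≤ S)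
    {N : ℝ} (hN : C * m * R ^ (1 / 2 + η) ≤ N) : WS K N (C * S) (WE R M) v := by
  have hN0 : 0 ≤ C * m * R ^ (1 / 2 + η) := by positivity
  have hS0 : 0 ≤ S := le_trans (by positivity) hS
  refine AWP2_mono h hN0 hN ?_ (mul_nonneg hC hS0)
  refine mul_le_mul_of_nonneg_left ?_ hC
  have hL2 : 0 < C0 * L ^ 2 := by positivity
  have h1 : R * ‖v‖ ^ 2 / (2 * C0 * L ^ 2) ≤ R / 2 * (qf M v).im := by
    rw [div_le_iff₀ (by positivity)]
    calc R * ‖v‖ ^ 2 ≤ R * (C0 * L ^ 2 * (qf M v).im) := mul_le_mul_of_nonneg_left hq hR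
      _ = R / 2 * (qf M v).im * (2 * C0 * L ^ 2) := by ring
  calc Real.exp (-(R / 2 * (qf M v).im)) ≤ Real.exp (-(R * ‖v‖ ^ 2 / (2 * C0 * L ^ 2))) := Real.exp_le_exp.mpr (by linarith)
    _ ≤ 2 * C0 * Real.exp (-(R * ‖v‖ ^ 2 / (2 * C0 * L ^ 2))) := le_mul_of_one_le_left (Real.exp_nonneg _) (by linarith)
    _ ≤ S := hS

/-- constants are absorbed -/
theorem AWP2_abs (Kc ζ1 : ℝ) (h1 : 1 ≤ Kc) (hζ : 0 < ζ1) (R : ℝ) (hR : Kc ^ (1 / ζ1) ≤ R) : Kc ≤ R ^ ζ1 := by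
  have h0 : 0 ≤ Kc := by linarith
  calc Kc = (Kc ^ (1 / ζ1)) ^ ζ1 := by rw [← Real.rpow_mul h0, one_div, inv_mul_cancel₀ hζ.ne', Real.rpow_one]
    _ ≤ R ^ ζ1 := Real.rpow_le_rpow (Real.rpow_nonneg h0 _) hR hζ.le

end AWP2aux

/-- **Row AWP2** -/
theorem AWP2_proof (hABMA : ABMA_stmt) (hAWEQ : AWEQ_stmt) (hAWE1 : AWE1_stmt) (hAWE2 : AWE2_stmt) (hAWCT : AWCT_stmt) (hAWQF : AWQF_stmt) (hAWSY : AWSY_stmt) (hAWPK : AWPK_stmt) (hAWPX : AWPX_stmt) (hAHLD : AHLD_stmt) (hACNF : ACNF_stmt) (hAMVI : AMVI_stmt) : AWP2_stmt := by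
  intro d Γ _ _ K k B r hFd
  obtain ⟨C0, hC01, hC0⟩ := hABMA d Γ K k B r hFd
  refine ⟨C0 + 8, by linarith, ?_⟩
  intro ch Kd e ζ ζ1 hch hRg
  obtain ⟨he0, hζ0, hζζ, hCe, hCζ⟩ := hRg
  have hζ1 : 0 < ζ1 := lt_of_lt_of_le hζ0 hζζ
  have he8 : 8 * e ≤ ζ1 := by nlinarith
  have heC : e * C0 ≤ ζ1 := by nlinarith
  have hζ8 : ζ1 ≤ 1 / 8 := by nlinarith
  obtain ⟨C1, hC11, hC1⟩ := hACNF d Γ K k B r 1 hFd
  obtain ⟨C2, hC21, hC2⟩ := hAHLD d Γ K k B (C1 + 1) Kd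
  obtain ⟨C3, hC31, hC3⟩ := hAWE1 d Γ K k B C1 Kd hFd
  obtain ⟨C4, hC41, hC4⟩ := hAWE2 d Γ K k B C1 ch Kd hFd hch
  obtain ⟨C5, hC51, hC5⟩ := hAWCT d ch Kd hch
  obtain ⟨C6, hC61, hC6⟩ := hAWQF d Kd
  obtain ⟨C7, hC71, hmul, -, -⟩ := hAWSY d Kd
  obtain ⟨RX, hRX1, hRX⟩ := hAWPX (2 * C0) ζ1 3 hζ1 (by linarith)
  obtain ⟨Kc, hKc⟩ : ∃ Kc : ℝ, Kc = C6 * C0 + C7 * C0 * (C7 * C2 * (C7 * C6 * (C7 * C5 * (C3 * C0 ^ 2)) + C7 * C6 * (C4 * C0))) := ⟨_, rfl⟩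
  have hKc1 : 1 ≤ Kc := by
    rw [hKc]
    have h1 : 1 ≤ C6 * C0 := one_le_mul_of_one_le_of_one_le hC61 hC01
    have h2 : 0 ≤ C7 * C0 * (C7 * C2 * (C7 * C6 * (C7 * C5 * (C3 * C0 ^ 2)) + C7 * C6 * (C4 * C0))) := by positivity
    linarith
  refine ⟨max RX (Kc ^ (1 / ζ1)), le_trans hRX1 (le_max_left _ _), ?_⟩
  intro R t G Φ p Y0 P0 hR0 hOK hp hEp ht hLag
  have hRX0 : RX ≤ R := le_trans (le_max_left _ _) hR0
  have hR1 : 1 ≤ R := le_trans hRX1 hRX0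
  have hRpos : 0 < R := by linarith
  have hKZ : Kc ≤ R ^ ζ1 := AWP2_abs Kc ζ1 hKc1 hζ1 R (le_trans (le_max_right _ _) hR0)
  -- powers
  have hL1 : 1 ≤ R ^ e := Real.one_le_rpow hR1 he0
  have hL2 : (R ^ e) ^ 2 ≤ R ^ ζ1 := by
    rw [← Real.rpow_natCast, ← Real.rpow_mul hRpos.le]
    exact Real.rpow_le_rpow_of_exponent_le hR1 (by push_cast; linarith)
  have hL4 : (R ^ e) ^ 4 ≤ R ^ ζ1 := by
    rw [← Real.rpow_natCast, ← Real.rpow_mul hRpos.le]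
    exact Real.rpow_le_rpow_of_exponent_le hR1 (by push_cast; linarith)
  have hLC : (R ^ e) ^ C0 ≤ R ^ ζ1 := by
    rw [← Real.rpow_mul hRpos.le]
    exact Real.rpow_le_rpow_of_exponent_le hR1 heC
  have hLe : R ^ (2 * e) = (R ^ e) ^ 2 := by
    rw [← Real.rpow_natCast, ← Real.rpow_mul hRpos.le]
    congr 1
    push_cast
    ring
  obtain ⟨Z, hZ⟩ : ∃ Z : ℝ, Z = R ^ ζ1 := ⟨_, rfl⟩
  obtain ⟨L, hL⟩ : ∃ L : ℝ, L = R ^ e := ⟨_, rfl⟩
  have hZ1 : 1 ≤ Z := by rw [hZ]; exact Real.one_le_rpow hR1 hζ1.le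
  rw [← hZ] at hL2 hL4 hLC hKZ
  rw [← hL] at hL1 hL2 hL4 hLC hLe hLag
  have hZp : ∀ n : ℕ, ∀ a : ℝ, R ^ (a + n * ζ1) = R ^ a * Z ^ n := by
    intro n a
    rw [Real.rpow_add hRpos, hZ, ← Real.rpow_natCast, ← Real.rpow_mul hRpos.le, mul_comm ζ1]
  -- the data of the beam
  obtain ⟨-, -, -, hamp, -, hM, hqf⟩ := hC0 G Φ p t L Y0 P0 hOK hp hEp ht hL1 hLag
  have hHam : Ham G p ≤ 2 := by
    have := abs_le.mp hEp
    unfold Ep at this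
    linarith [this.2]
  obtain ⟨hq1, hq2, -, -, -⟩ := hC1 G Φ hOK p t hp hHam ht
  obtain ⟨m, hm⟩ : ∃ m : ℝ, m = C0 * L ^ 2 := ⟨_, rfl⟩
  have hm1 : 1 ≤ m := by
    rw [hm]
    exact one_le_mul_of_one_le_of_one_le hC01 (one_le_pow₀ hL1)
  have hMm : ∀ i j, ‖Mt Φ p Y0 P0 t i j‖ ≤ m := by rw [hm]; exact hM
  obtain ⟨M, hMd⟩ : ∃ M : MC d, M = Mt Φ p Y0 P0 t := ⟨_, rfl⟩
  obtain ⟨q, hqd⟩ : ∃ q : P d, q = Φ t p := ⟨_, rfl⟩
  have hEQ := hAWEQ d Γ K k B G Φ L Y0 P0 ch ζ1 R hOK hLag hch hζ1 hζ8 hR1 p t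
  rw [← hMd] at hMm hqf
  simp only [← hMd, ← hqd] at hEQ
  rw [← hqd] at hq1 hq2
  -- the factors
  obtain ⟨hX1, -, hX3, hX4, -, hX6⟩ := hC5 ζ1 R hζ1.le (by linarith) hR1
  obtain ⟨hT1, hT2, hT3, hT4⟩ := hC4 G q M m R ζ1 hOK.cls hq1 hq2 hm1 hMm hR1 hζ1.le hζ8
  have hdens := hAMVI d Γ K k B G hFd hOK.cls
  have hdS : ContDiff ℝ ∞ (fun y => (Real.sqrt (dens G y))⁻¹) := by
    refine ContDiff.inv ?_ (fun x => (Real.sqrt_pos.mpr (hdens.2.2.1 x)).ne')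
    exact ContDiff.sqrt hdens.2.1 (fun x => (hdens.2.2.1 x).ne')
  obtain ⟨c, hc⟩ : ∃ c : ℂ, c = amp Φ p Y0 P0 t * Complex.exp (((R * ((Ham G p + 1 / 2) * t) : ℝ) : ℂ) * Complex.I) := ⟨_, rfl⟩
  have hcn : ‖c‖ ≤ C0 * Z := by
    rw [hc, norm_mul, Complex.norm_exp_ofReal_mul_I, mul_one]
    exact hamp.trans (mul_le_mul_of_nonneg_left hLC (by linarith))
  obtain ⟨N, hN⟩ : ∃ N : ℝ, N = R ^ (1 / 2 + (C0 + 8) * ζ1) := ⟨_, rfl⟩
  have hN1 : 1 ≤ N := by rw [hN]; exact Real.one_le_rpow hR1 (by positivity)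
  have hN0 : 0 ≤ N := by linarith
  have hNh : R ^ (1 / 2 : ℝ) ≤ N := by
    rw [hN]
    refine Real.rpow_le_rpow_of_exponent_le hR1 ?_
    have : 0 ≤ (C0 + 8) * ζ1 := by positivity
    linarith
  have hNE : C6 * m * R ^ (1 / 2 + ζ1) ≤ N := by
    have h3 : R ^ (1 / 2 + ζ1) = R ^ (1 / 2 : ℝ) * Z := by
      have := hZp 1 (1 / 2)
      rw [pow_one, Nat.cast_one, one_mul] at this
      exact this
    have h4 : R ^ (1 / 2 : ℝ) * Z ^ 3 ≤ N := by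
      rw [← hZp 3 (1 / 2), hN]
      refine Real.rpow_le_rpow_of_exponent_le hR1 ?_
      push_cast
      nlinarith
    have h5 : C6 * C0 ≤ Z := by
      refine le_trans ?_ hKZ
      rw [hKc]
      have h2 : 0 ≤ C7 * C0 * (C7 * C2 * (C7 * C6 * (C7 * C5 * (C3 * C0 ^ 2)) + C7 * C6 * (C4 * C0))) := by positivity
      linarith
    calc C6 * m * R ^ (1 / 2 + ζ1) = (C6 * C0) * L ^ 2 * (R ^ (1 / 2 : ℝ) * Z) := by rw [hm, h3]; ring
      _ ≤ Z * Z * (R ^ (1 / 2 : ℝ) * Z) := by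
          have : 0 ≤ R ^ (1 / 2 : ℝ) * Z := by positivity
          refine mul_le_mul_of_nonneg_right ?_ this
          exact mul_le_mul h5 hL2 (by positivity) (by positivity)
      _ = R ^ (1 / 2 : ℝ) * Z ^ 3 := by ring
      _ ≤ N := h4
  -- the profile
  obtain ⟨A, hA⟩ : ∃ A : V d → ℂ, A = fun v => c * ((((Real.sqrt (dens G (q.1 + v)))⁻¹ : ℝ) : ℂ) * (WE R M v * (WX ch ζ1 R v * Wmn G R q M v) + WE R M v * Wct G ch ζ1 R q M v)) := ⟨_, rfl⟩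
  obtain ⟨Sz, hSz⟩ : ∃ Sz : ℝ, Sz = C7 * ‖c‖ * (C7 * C2 * (C7 * C6 * (C7 * C5 * (C3 * m ^ 2 * R ^ (-(1 / 2) + 3 * ζ1))) + C7 * C6 * (C4 * C0) * R ^ (-(1 / 2) : ℝ))) := ⟨_, rfl⟩
  have hSzb : Sz ≤ R ^ (-(1 / 2) + (C0 + 8) * ζ1) := by
    have h3 : R ^ (-(1 / 2) + 3 * ζ1) = R ^ (-(1 / 2) : ℝ) * Z ^ 3 := by
      have := hZp 3 (-(1 / 2))
      push_cast at this
      exact this
    have h6 : R ^ (-(1 / 2) : ℝ) * Z ^ 6 ≤ R ^ (-(1 / 2) + (C0 + 8) * ζ1) := by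
      rw [← hZp 6 (-(1 / 2))]
      refine Real.rpow_le_rpow_of_exponent_le hR1 ?_
      push_cast
      nlinarith
    have hR2 : 0 ≤ R ^ (-(1 / 2) : ℝ) := Real.rpow_nonneg hRpos.le _
    have hm2 : m ^ 2 ≤ C0 ^ 2 * Z := by
      rw [hm]
      calc (C0 * L ^ 2) ^ 2 = C0 ^ 2 * L ^ 4 := by ring
        _ ≤ C0 ^ 2 * Z := mul_le_mul_of_nonneg_left hL4 (by positivity)
    have h7 : R ^ (-(1 / 2) : ℝ) ≤ R ^ (-(1 / 2) : ℝ) * Z ^ 4 := le_mul_of_one_le_right hR2 (one_le_pow₀ hZ1)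
    have h8 : C3 * m ^ 2 * R ^ (-(1 / 2) + 3 * ζ1) ≤ (C3 * C0 ^ 2) * (R ^ (-(1 / 2) : ℝ) * Z ^ 4) := by
      rw [h3]
      calc C3 * m ^ 2 * (R ^ (-(1 / 2) : ℝ) * Z ^ 3) ≤ C3 * (C0 ^ 2 * Z) * (R ^ (-(1 / 2) : ℝ) * Z ^ 3) := by
            refine mul_le_mul_of_nonneg_right ?_ (by positivity)
            exact mul_le_mul_of_nonneg_left hm2 (by linarith)
        _ = (C3 * C0 ^ 2) * (R ^ (-(1 / 2) : ℝ) * Z ^ 4) := by ring
    calc Sz ≤ C7 * (C0 * Z) * (C7 * C2 * (C7 * C6 * (C7 * C5 * ((C3 * C0 ^ 2) * (R ^ (-(1 / 2) : ℝ) * Z ^ 4))) + C7 * C6 * (C4 * C0) * (R ^ (-(1 / 2) : ℝ) * Z ^ 4))) := by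
          rw [hSz]
          have hm0 : 0 ≤ m := by linarith
          gcongr
      _ = (C7 * C0 * (C7 * C2 * (C7 * C6 * (C7 * C5 * (C3 * C0 ^ 2)) + C7 * C6 * (C4 * C0)))) * (R ^ (-(1 / 2) : ℝ) * Z ^ 5) := by ring
      _ ≤ Z * (R ^ (-(1 / 2) : ℝ) * Z ^ 5) := by
          refine mul_le_mul_of_nonneg_right (le_trans ?_ hKZ) (by positivity)
          rw [hKc]
          have : 0 ≤ C6 * C0 := by positivity
          linarith
      _ = R ^ (-(1 / 2) : ℝ) * Z ^ 6 := by ring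
      _ ≤ _ := h6
  have hin : ∀ v : V d, ‖v‖ ≤ R ^ (-(1 / 2) + ζ1) → WS Kd N Sz A v := by
    intro v hv
    have hv1 : ‖v‖ ≤ 1 := hv.trans (Real.rpow_le_one_of_one_le_of_nonpos hR1 (by linarith))
    have hE0 := (hC6 R m ζ1 M v hR1 hm1 hζ1.le hMm hv).2
    have hqv := hqf v
    have him : 0 ≤ (qf M v).im := by
      by_contra hneg
      push Not at hneg
      have : C0 * L ^ 2 * (qf M v).im < 0 := mul_neg_of_pos_of_neg (by positivity) hneg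
      have h2 : 0 ≤ ‖v‖ ^ 2 := by positivity
      linarith
    have hE : WS Kd N C6 (WE R M) v := AWP2_E1 hRpos.le hE0 (by linarith) (by linarith) him hNE
    have hX : WS Kd N C5 (WX ch ζ1 R : V d → ℂ) v := by
      refine AWP2_mono (⟨hX1.contDiffAt, fun k hk => hX4 k hk v⟩ : WS Kd (R ^ (1 / 2 : ℝ)) C5 (WX ch ζ1 R : V d → ℂ) v) (Real.rpow_nonneg hRpos.le _) hNh le_rfl (by linarith)
    have hmn : WS Kd N (C3 * m ^ 2 * R ^ (-(1 / 2) + 3 * ζ1)) (Wmn G R q M) v := by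
      have := hC3 G q M m R ζ1 v hOK.cls hq1 hq2 hm1 hMm hR1 hζ1.le hζ8 hv
      exact AWP2_mono this (Real.rpow_nonneg hRpos.le _) hNh le_rfl (by positivity)
    have hD : WS Kd N C2 (fun w : V d => (((Real.sqrt (dens G (q.1 + w)))⁻¹ : ℝ) : ℂ)) v := by
      have hx : ‖q.1 + v‖ ≤ C1 + 1 := (norm_add_le _ _).trans (add_le_add hq1 hv1)
      have h1 := ((hC2 G hFd hOK.cls).2.2.2.2 (q.1 + v) hx).2.1
      exact AWP2_mono (AWP2_real (fun y => (Real.sqrt (dens G y))⁻¹) q.1 v hdS (fun k hk => (h1 k hk).2.1)) zero_le_one hN1 le_rfl (by linarith)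
    have hct : WS Kd N (C7 * C6 * (C4 * C0) * R ^ (-(1 / 2) : ℝ)) (fun w => WE R M w * Wct G ch ζ1 R q M w) v := by
      rcases lt_or_ge ‖v‖ (R ^ (-(1 / 2) + ζ1) / 2) with hlt | hge
      · have h0 := hT3 v hlt
        refine AWP2_zero hN0 (by positivity) ?_
        filter_upwards [h0] with w hw
        rw [hw, mul_zero]
      · have hSm := hRX R e ‖v‖ hRX0 he0 (by linarith) (by
          refine le_trans ?_ hge
          have hpos : 0 ≤ R ^ (-(1 / 2) + ζ1) := Real.rpow_nonneg hRpos.le _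
          have : (2 : ℝ) ≤ 2 * (2 * C0) := by linarith
          exact div_le_div_of_nonneg_left hpos (by norm_num) this)
        rw [hLe] at hSm
        have hE2 : WS Kd N (C6 * R ^ (-3 : ℝ)) (WE R M) v :=
          AWP2_E2 hRpos.le hE0 (by linarith) (by linarith) hC01 (by linarith) hqv hSm hNE
        have hT := AWP2_mono (hT2 v hv1) (Real.rpow_nonneg hRpos.le _) hNh (le_refl (C4 * m * R)) (by positivity)
        have hprod := (hmul N (C6 * R ^ (-3 : ℝ)) (C4 * m * R) (WE R M) (Wct G ch ζ1 R q M) v hN1 (by positivity) (by positivity) hE2 hT).1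
        refine AWP2_mono hprod hN0 le_rfl ?_ (by positivity)
        have h3 : L ^ 2 * (R ^ (-3 : ℝ) * R) ≤ R ^ (-(1 / 2) : ℝ) := by
          have h31 : R ^ (-3 : ℝ) * R = R ^ (-2 : ℝ) := by
            have := Real.rpow_add hRpos (-3) 1
            rw [Real.rpow_one] at this
            rw [← this]
            norm_num
          rw [h31, ← hLe, ← Real.rpow_add hRpos]
          exact Real.rpow_le_rpow_of_exponent_le hR1 (by linarith)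
        calc C7 * (C6 * R ^ (-3 : ℝ)) * (C4 * m * R) = C7 * C6 * (C4 * C0) * (L ^ 2 * (R ^ (-3 : ℝ) * R)) := by rw [hm]; ring
          _ ≤ C7 * C6 * (C4 * C0) * R ^ (-(1 / 2) : ℝ) := mul_le_mul_of_nonneg_left h3 (by positivity)
    have h1 := (hmul N C5 (C3 * m ^ 2 * R ^ (-(1 / 2) + 3 * ζ1)) _ _ v hN1 (by linarith) (by positivity) hX hmn).1
    have h2 := (hmul N C6 _ _ _ v hN1 (by linarith) (by positivity) hE h1).1
    have h3 := (hmul N _ _ _ _ v hN1 (by positivity) (by positivity) h2 hct).2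
    have h4 := (hmul N C2 _ _ _ v hN1 (by linarith) (by positivity) hD h3).1
    have h5 := (hmul N ‖c‖ _ _ _ v hN1 (norm_nonneg c) (by positivity) (AWP2_const hN0 c v) h4).1
    rw [hA, hSz]
    exact h5
  have hout : ∀ v : V d, R ^ (-(1 / 2) + ζ1) < ‖v‖ → A =ᶠ[𝓝 v] fun _ => 0 := by
    intro v hv
    have h1 := hX6 v hv
    have h2 := hT4 v hv
    rw [hA]
    filter_upwards [h1, h2] with w hw1 hw2
    rw [hw1, hw2]
    ring
  have hAs : ContDiff ℝ ∞ A := by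
    rw [contDiff_iff_contDiffAt]
    intro v
    rcases le_or_gt ‖v‖ (R ^ (-(1 / 2) + ζ1)) with hv | hv
    · exact (hin v hv).1
    · exact contDiffAt_const.congr_of_eventuallyEq (hout v hv)
  have hcrit := (hAWPK d Kd R q hR1).1 ζ1 ((C0 + 8) * ζ1) (R ^ (-(1 / 2) + (C0 + 8) * ζ1)) A (Eb G Φ ch ζ1 R Y0 P0 p t) (by nlinarith) (Real.rpow_nonneg hRpos.le _) hAs hout
    (by
      intro v hv k hk
      have h1 := (hin v hv).2 k hk
      rw [← hN]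
      exact h1.trans (mul_le_mul_of_nonneg_right hSzb (pow_nonneg hN0 k)))
    (by
      intro w
      have h1 := (hEQ (w - q.1)).2.2
      rw [show q.1 + (w - q.1) = w from by abel] at h1
      rw [h1, hA]
      unfold Wpf
      rw [← hqd, hc]
      ring)
  rw [← hqd]
  exact hcrit

end Pool.Agent.VD
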